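import Pool.Agent.U115.GD.Stm2
import Pool.Agent.Y405.JQ.MER

set_option autoImplicit false

/-!
# Project GD, the statement S_JMER: Mertens' theorem for the split primes on which a fixed product of
odd primes is not a square (general modulus). Port of `Pool/Agent/Y405/JQ/MER.lean` (helper405 of an
earlier team).
-/

open scoped Classical

namespace Pool.Agent.U488.GD

open Finset
open Pool.Agent.U115.GD
open Pool.Agent.Y703.CQ (nr)
open Pool.Agent.Y405.JQ (sg sg_neg jac_sum card_neg)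
open scoped NumberTheorySymbols

/-- a class with symbol `-1` -/
theorem exists_neg (e : Finset ℕ) (hne : e.Nonempty) (he : ∀ u ∈ e, u.Prime ∧ u ≠ 2)
    (m : ℕ) (hm : m = ∏ u ∈ e, u) : ∃ b : ℕ, J((b : ℤ) | m) = -1 := by
  obtain ⟨u, hu⟩ := hne
  have : Fact u.Prime := ⟨(he u hu).1⟩
  have hchar : ringChar (ZMod u) ≠ 2 := by
    rw [ZMod.ringChar_zmod_n]
    exact (he u hu).2
  obtain ⟨n, hn⟩ := FiniteField.exists_nonsquare hchar
  have hm' : m = u * ∏ v ∈ e.erase u, v := by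
    rw [hm, mul_prod_erase e (fun v => v) hu]
  have hcop : u.Coprime (∏ v ∈ e.erase u, v) := by
    refine Nat.Coprime.prod_right fun v hv => ?_
    rw [mem_erase] at hv
    exact (Nat.coprime_primes (he u hu).1 (he v hv.2).1).mpr (Ne.symm hv.1)
  obtain ⟨b, hb1, hb2⟩ := Nat.chineseRemainder hcop n.val 1
  have hu0 : u ≠ 0 := (he u hu).1.ne_zero
  have hr0 : ∏ v ∈ e.erase u, v ≠ 0 := prod_ne_zero_iff.mpr fun v hv =>
    (he v (mem_of_mem_erase hv)).1.ne_zero
  refine ⟨b, ?_⟩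
  rw [hm', jacobiSym.mul_right' _ hu0 hr0]
  have h1 : J((b : ℤ) | u) = -1 := by
    have h2 : J((b : ℤ) | u) = J((n.val : ℤ) | u) := by
      apply jacobiSym.mod_left'
      exact_mod_cast hb1
    rw [h2]
    apply ZMod.nonsquare_iff_jacobiSym_eq_neg_one.mpr
    rw [Int.cast_natCast, ZMod.natCast_zmod_val]
    exact hn
  have h3 : J((b : ℤ) | ∏ v ∈ e.erase u, v) = 1 := by
    have h2 : J((b : ℤ) | ∏ v ∈ e.erase u, v) = J(1 | ∏ v ∈ e.erase u, v) := by
      apply jacobiSym.mod_left'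
      exact_mod_cast hb2
    rw [h2, jacobiSym.one_left]
  rw [h1, h3]
  norm_num

/-- split residues are prime to the modulus -/
theorem hc_cop {G : Cfg} (h : Ok G) {n : ℕ} (hn : Hc G n) : Nat.Coprime n G.Q := by
  refine Nat.Coprime.symm (Nat.Coprime.symm ?_)
  rw [Nat.coprime_iff_gcd_eq_one]
  by_contra hne
  obtain ⟨p, hp, hpd⟩ := Nat.exists_prime_and_dvd hne
  have h1 : p ∣ n := hpd.trans (Nat.gcd_dvd_left _ _)
  have h2 : p ∣ G.Q := hpd.trans (Nat.gcd_dvd_right _ _)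
  rcases h.hQ p hp h2 with rfl | h5
  · have := hn.1
    omega
  · have h6 := hn.2 p h5
    have : Fact p.Prime := ⟨hp⟩
    rw [← jacobiSym.legendreSym.to_jacobiSym,
      (legendreSym.eq_zero_iff p n).2 (by
        rw [Int.cast_natCast]
        exact (ZMod.natCast_eq_zero_iff n p).2 h1)] at h6
    exact zero_ne_one h6

/-- the classes -/
noncomputable def AM (G : Cfg) (m : ℕ) : Finset ℕ := (range (G.Q * m)).filter fun a =>
  Hc G a ∧ J((a : ℤ) | m) = -1

theorem card_AM {G : Cfg} (h : Ok G) (m : ℕ) (hcop : Nat.Coprime G.Q m) :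
    (AM G m).card = (AA G).card * ((range m).filter fun a : ℕ => J((a : ℤ) | m) = -1).card := by
  rw [← card_product]
  have hJ : ∀ a : ℕ, J(((a % m : ℕ) : ℤ) | m) = J((a : ℤ) | m) := by
    intro a
    rw [Int.natCast_mod, ← jacobiSym.mod_left]
  refine card_bij (fun a _ => (a % G.Q, a % m)) ?_ ?_ ?_
  · intro a ha
    obtain ⟨h1, h2, h5⟩ := mem_filter.mp ha
    have hm0 : 0 < m := by
      rw [mem_range] at h1
      by_contra h
      have : m = 0 := by omega
      rw [this] at h1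
      omega
    rw [mem_product, AA, mem_filter, mem_filter, mem_range, mem_range]
    refine ⟨⟨Nat.mod_lt _ h.q0, ?_, (hc_mod h a).2 h2⟩, Nat.mod_lt _ hm0, ?_⟩
    · show Nat.Coprime (a % G.Q) G.Q
      exact hc_cop h ((hc_mod h a).2 h2)
    · show J(((a % m : ℕ) : ℤ) | m) = -1
      rw [hJ, h5]
  · intro a ha b hb hab
    rw [Prod.mk.injEq] at hab
    have h1 : a ≡ b [MOD G.Q * m] := (Nat.modEq_and_modEq_iff_modEq_mul hcop).mp hab
    exact h1.eq_of_lt_of_lt (mem_range.mp (mem_filter.mp ha).1) (mem_range.mp (mem_filter.mp hb).1)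
  · rintro ⟨x, y⟩ hxy
    rw [mem_product, AA, mem_filter, mem_filter, mem_range, mem_range] at hxy
    obtain ⟨⟨hx1, hx2, hx3⟩, hy1, hy2⟩ := hxy
    simp only [] at hx1 hx2 hx3 hy1 hy2
    have hm0 : m ≠ 0 := by
      rintro rfl
      exact absurd hy1 (Nat.not_lt_zero _)
    have hlt := Nat.chineseRemainder_lt_mul hcop x y h.q0.ne' hm0
    obtain ⟨k, hk⟩ : ∃ k, k = Nat.chineseRemainder hcop x y := ⟨_, rfl⟩
    rw [← hk] at hlt
    obtain ⟨k, hk1, hk2⟩ := k
    clear hk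
    have hQ' : k % G.Q = x := by
      rw [hk1, Nat.mod_eq_of_lt hx1]
    have hmm : k % m = y := by
      rw [hk2, Nat.mod_eq_of_lt hy1]
    refine ⟨k, mem_filter.mpr ⟨mem_range.mpr hlt, ?_, ?_⟩, ?_⟩
    · rw [← hc_mod h, hQ']
      exact hx3
    · rw [← hJ, hmm, hy2]
    · rw [hQ', hmm]

theorem t_JMER : S_JMER := by
  intro G e hG hne he
  obtain ⟨m, hm⟩ : ∃ m : ℕ, m = ∏ u ∈ e, u := ⟨_, rfl⟩
  have hm0 : m ≠ 0 := by
    rw [hm]
    exact prod_ne_zero_iff.mpr fun v hv => (he v hv).1.ne_zero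
  have hcop : Nat.Coprime G.Q m := by
    rw [hm]
    refine Nat.Coprime.prod_right fun u hu => ?_
    obtain ⟨h1, h2, h3⟩ := he u hu
    rw [Nat.coprime_comm, h1.coprime_iff_not_dvd]
    intro h
    rcases hG.hQ u h1 h with h5 | h5
    · exact h2 h5
    · exact h3 h5
  have hodd : Odd m := by
    rw [← Nat.not_even_iff_odd, even_iff_two_dvd]
    intro h
    have h1 : 2 ∣ Nat.gcd G.Q m := Nat.dvd_gcd (dvd_trans (by norm_num) hG.q8) h
    rw [hcop] at h1
    norm_num at h1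
  obtain ⟨b, hb⟩ := exists_neg e hne (fun u hu => ⟨(he u hu).1, (he u hu).2.1⟩) m hm
  have hcard : 2 * (AM G m).card = (AA G).card * Nat.totient m := by
    have h1 := card_neg m hm0 b hb
    rw [card_AM hG m hcop, ← h1]
    ring
  have hQ : 1 ≤ G.Q * m := Nat.mul_pos hG.q0 (Nat.pos_of_ne_zero hm0)
  have hJc : ∀ a : ℕ, J((a : ℤ) | m) = -1 → Nat.Coprime a m := by
    intro a ha
    have h1 : J((a : ℤ) | m) ≠ 0 := by rw [ha]; norm_num
    rw [Ne, jacobiSym.eq_zero_iff, not_and_or] at h1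
    rcases h1 with h1 | h1
    · exact absurd hm0 h1
    · rw [not_not, Int.gcd_natCast_natCast] at h1
      exact h1
  have hmer : ∀ a ∈ AM G m, ∃ C : ℝ, 0 ≤ C ∧ ∀ x : ℕ, 3 ≤ x →
      |∑ p ∈ (Icc 1 x).filter (fun p => p.Prime ∧ p % (G.Q * m) = a), (1 : ℝ) / p -
        1 / (Nat.totient (G.Q * m) : ℝ) * Real.log (Real.log x)| ≤ C := by
    intro a ha
    obtain ⟨h1, h2, h4⟩ := mem_filter.mp ha
    refine Pool.Agent.Y405.CQ.mertens_ap (G.Q * m) hQ a (mem_range.mp h1) ?_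
    exact Nat.Coprime.mul_right (hc_cop hG h2) (hJc a h4)
  choose! C hC0 hC using hmer
  refine ⟨∑ a ∈ AM G m, C a, fun y hy => ?_⟩
  -- the condition in terms of the class
  have hcond : ∀ p : ℕ, p.Prime → ((Sp G p ∧ p ∉ e ∧ ∑ u ∈ e, nr p u ≠ 0) ↔
      p % (G.Q * m) ∈ AM G m) := by
    intro p hp
    have e1 : Hc G (p % (G.Q * m)) ↔ Hc G p := by
      rw [← hc_mod hG (p % (G.Q * m)), Nat.mod_mod_of_dvd _ (Dvd.intro _ rfl), hc_mod hG]
    have e3 : J(((p % (G.Q * m) : ℕ) : ℤ) | m) = J((p : ℤ) | m) := by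
      rw [jacobiSym.mod_left, ← Int.natCast_mod, Nat.mod_mod_of_dvd _ (Dvd.intro_left _ rfl),
        Int.natCast_mod, ← jacobiSym.mod_left]
    have e4 : p % 8 = 1 → p ∉ e → J((p : ℤ) | m) = sg (∑ u ∈ e, nr p u) := by
      intro g1 g2
      rw [jacobiSym.quadratic_reciprocity_one_mod_four (by omega) hodd, hm]
      exact jac_sum p hp e (fun u hu => (he u hu).1) g2
    rw [AM, mem_filter, mem_range, e1, e3]
    constructor
    · rintro ⟨⟨-, g1⟩, g3, g4⟩
      refine ⟨Nat.mod_lt _ hQ, g1, ?_⟩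
      rw [e4 g1.1 g3, sg_neg]
      exact g4
    · rintro ⟨-, g1, g3⟩
      have g4 : p ∉ e := by
        intro h
        have h5 := hJc p g3
        have h6 : p ∣ m := by
          rw [hm]
          exact dvd_prod_of_mem _ h
        exact hp.one_lt.ne' (Nat.eq_one_of_dvd_coprimes h5 dvd_rfl h6)
      refine ⟨⟨hp, g1⟩, g4, ?_⟩
      rw [e4 g1.1 g4, sg_neg] at g3
      exact g3
  have hsum : ∑ p ∈ (range (y + 1)).filter (fun p => Sp G p ∧ p ∉ e ∧ ∑ u ∈ e, nr p u ≠ 0),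
      (1 : ℝ) / p = ∑ a ∈ AM G m, ∑ p ∈ (Icc 1 y).filter
        (fun p => p.Prime ∧ p % (G.Q * m) = a), (1 : ℝ) / p := by
    rw [← sum_fiberwise_of_maps_to (s := (range (y + 1)).filter
      (fun p => Sp G p ∧ p ∉ e ∧ ∑ u ∈ e, nr p u ≠ 0)) (t := AM G m)
      (g := fun p => p % (G.Q * m))]
    · refine sum_congr rfl fun a ha => ?_
      refine sum_congr ?_ fun _ _ => rfl
      ext p
      rw [mem_filter, mem_filter, mem_filter, mem_range, mem_Icc]
      constructor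
      · rintro ⟨⟨g1, g2⟩, g3⟩
        exact ⟨⟨g2.1.1.one_lt.le, by omega⟩, g2.1.1, g3⟩
      · rintro ⟨⟨g0, g1⟩, g2, g3⟩
        refine ⟨⟨by omega, (hcond p g2).mpr ?_⟩, g3⟩
        rw [g3]
        exact ha
    · intro p hp
      have hp' := (mem_filter.mp hp).2
      exact (hcond p hp'.1.1).mp hp'
  have hphiQ : (0 : ℝ) < (Nat.totient G.Q : ℝ) := by
    exact_mod_cast Nat.totient_pos.mpr hG.q0
  have hphim : (0 : ℝ) < (Nat.totient m : ℝ) := by
    exact_mod_cast Nat.totient_pos.mpr (Nat.pos_of_ne_zero hm0)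
  have hconst : (da G / 2 : ℝ) * Real.log (Real.log y) =
      ∑ a ∈ AM G m, 1 / (Nat.totient (G.Q * m) : ℝ) * Real.log (Real.log y) := by
    rw [sum_const, nsmul_eq_mul, ← mul_assoc]
    congr 1
    have h1 : (2 : ℝ) * ((AM G m).card : ℝ) = ((AA G).card : ℝ) * (Nat.totient m : ℝ) := by
      exact_mod_cast hcard
    rw [Nat.totient_mul hcop, Nat.cast_mul]
    have h2 : ((AM G m).card : ℝ) = ((AA G).card : ℝ) * (Nat.totient m : ℝ) / 2 := by linarith
    rw [h2]
    unfold da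
    field_simp
  rw [hsum, hconst, ← sum_sub_distrib]
  exact (abs_sum_le_sum_abs _ _).trans (sum_le_sum fun a ha => hC a ha y hy)

end Pool.Agent.U488.GD
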